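import Pool.Agent.H41.Lib.H326R2.Pi.Stmts
/-!
# T13: imaginary part of the primitive at `1 + i` (helper204)
-/

open Polynomial

namespace Pool.Agent.H204R2.PiT13

open Pool.Agent.H326R2.Pi

theorem aeval_cast (Ψ : ℚ[X]) (q : ℚ) :
    Polynomial.aeval ((q : ℚ) : ℂ) Ψ = ((Ψ.eval q : ℚ) : ℂ) := by
  have h := Polynomial.aeval_algebraMap_apply ℂ q Ψ
  simp only [eq_ratCast] at h
  rw [h, Polynomial.coe_aeval_eq_eval]

theorem log_im : (Complex.log (1 + Complex.I)).im = Real.pi / 4 := by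
  rw [Complex.log_im]
  have h : (1 + Complex.I : ℂ) = ((Real.sqrt 2 : ℝ) : ℂ) * (Complex.cos ((Real.pi / 4 : ℝ) : ℂ)
      + Complex.sin ((Real.pi / 4 : ℝ) : ℂ) * Complex.I) := by
    rw [← Complex.ofReal_cos, ← Complex.ofReal_sin, Real.cos_pi_div_four, Real.sin_pi_div_four]
    have h2 := Real.mul_self_sqrt (show (0 : ℝ) ≤ 2 by norm_num)
    apply Complex.ext
    · simp
      nlinarith
    · simp
      nlinarith
  rw [h, Complex.arg_mul_cos_add_sin_mul_I (by positivity)]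
  constructor <;> linarith [Real.pi_pos]

theorem t13 : S_im := by
  intro n _ k Ψ
  constructor
  · have hz : (2 : ℂ) / (1 + Complex.I) = 1 - Complex.I := by
      have hne : (1 + Complex.I : ℂ) ≠ 0 := by
        intro h
        have := congrArg Complex.re h
        simp at this
      rw [div_eq_iff hne]
      ring_nf
      rw [Complex.I_sq]
      norm_num
    have h1 : (1 + Complex.I : ℂ) + 2 / (1 + Complex.I) = ((2 : ℚ) : ℂ) := by
      rw [hz]; push_cast; ring
    have h2 : (1 + Complex.I : ℂ) - 2 / (1 + Complex.I) = 2 * Complex.I := by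
      rw [hz]; ring
    have h3 : (2 * Complex.I : ℂ) ^ (4 * n) = ((16 ^ n : ℝ) : ℂ) := by
      rw [pow_mul, mul_pow, Complex.I_pow_four]
      push_cast
      norm_num
    unfold Prim
    rw [h1, h2, h3, aeval_cast, Complex.add_im]
    have h4 : ((k : ℂ) * Complex.log (1 + Complex.I)).im = (k : ℝ) * (Real.pi / 4) := by
      have : (k : ℂ) = ((k : ℝ) : ℂ) := by push_cast; rfl
      rw [this, Complex.im_ofReal_mul, log_im]
    have h5 : (((Ψ.eval 2 : ℚ) : ℂ) * (2 * Complex.I / ((16 ^ n : ℝ) : ℂ))).im =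
        (qq n Ψ : ℝ) / 4 := by
      have : (((Ψ.eval 2 : ℚ) : ℂ) * (2 * Complex.I / ((16 ^ n : ℝ) : ℂ))) =
          (((Ψ.eval 2 : ℚ) * 2 / (16 ^ n : ℝ) : ℝ) : ℂ) * Complex.I := by
        push_cast; ring
      rw [this, Complex.im_ofReal_mul, Complex.I_im]
      unfold qq
      push_cast
      ring
    rw [h4, h5]
  · unfold Prim
    have h1 : (1 : ℂ) + 2 / 1 = ((3 : ℚ) : ℂ) := by push_cast; norm_num
    have h2 : (1 : ℂ) - 2 / 1 = -1 := by norm_num
    have h3 : (-1 : ℂ) ^ (4 * n) = 1 := by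
      rw [pow_mul]; norm_num
    rw [h1, h2, h3, aeval_cast, Complex.log_one]
    have : ((k : ℂ) * 0 + ((Ψ.eval 3 : ℚ) : ℂ) * (-1 / 1)) = ((-(Ψ.eval 3 : ℚ) : ℝ) : ℂ) := by
      push_cast; ring
    rw [this, Complex.ofReal_im]

end Pool.Agent.H204R2.PiT13
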